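import Pool.Agent.Q168.Arr.Check

/-!
# MP_90133a_co: the edge-isoperimetric inequality for chamber graphs fails in `ℝ^3`

There are `24` planes in general position in `ℝ^3` (with integer coefficients, normals with entries
at most `40` in absolute value) and a set `S` of `1160 = C(19,0) + C(19,1) + C(19,2) + C(19,3)` of
their `2325` chambers whose edge boundary in the chamber graph has at most `189` edges, while the
inequality of the question would require at least `C(19,0) + C(19,1) + C(19,2) = 191`.

The geometric idea: `12` planes are close to a pencil through a line `ℓ`, `11` planes are close to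
a pencil through a line `m` skew to `ℓ`, one plane lies between the two lines, and `S` consists of
the chambers on the side of `m`, corrected at infinity in such a way that (nearly) all lines of
intersection of two planes of the same family avoid the boundary of `S`.  Only the lines of
intersection of planes of different families, half of all lines, cross the boundary.
-/

namespace Pool.Agent.Results.MP_90133a_co.TwentyFourPlanes

open Module Set Q168.Arr

/-- A finite arrangement `𝓗` of planes in general position in `ℝ^3`, a number `k ≥ 2` and a set `S`
of at most half of the chambers of `𝓗` with `|S| = ∑_{i ≤ 3} C(k, i)` and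
`|∂S| < ∑_{i ≤ 2} C(k, i)`. -/
theorem result :
    ∃ (𝓗 : Finset (Flat 3)) (S : Set (chambers 𝓗)) (k : ℕ),
      GeneralPosition 𝓗 ∧ 𝓗.card = 24 ∧ (chambers 𝓗).Finite ∧
      3 - 1 ≤ k ∧ k = 19 ∧
      S.ncard = ∑ i ∈ Finset.range (3 + 1), k.choose i ∧
      2 * S.ncard ≤ (chambers 𝓗).ncard ∧
      (edgeBoundary (chamberGraph 𝓗) S).ncard ≤ 189 ∧
      189 < ∑ i ∈ Finset.range 3, k.choose i := by
  classical
  refine ⟨arr (phi Ex.PL) (rhs Ex.PL), Ex.S, 19, Ex.general_position, ?_, chambers_finite,
    by norm_num, rfl, ?_, ?_, Ex.boundary_S, by decide⟩
  · have hinj := hyp_injective Ex.gp3_ok (by rw [Ex.length_PL]; norm_num)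
    have : arr (phi Ex.PL) (rhs Ex.PL) = Finset.univ.image
        fun i => hyp (phi Ex.PL i) (rhs Ex.PL i) := by
      ext H
      rw [mem_arr]
      simp
    rw [this, Finset.card_image_of_injective _ hinj, Finset.card_univ, Fintype.card_fin,
      Ex.length_PL]
  · rw [Ex.ncard_S]
    decide
  · rw [Ex.ncard_S]
    exact Ex.le_chambers

end Pool.Agent.Results.MP_90133a_co.TwentyFourPlanes
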